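import Pool.Agent.W945.Lc.Stm2

/-! Inequalities for read-once formulas. -/

namespace Pool.Agent.W584.Lc2.BLKN

open Pool.Agent.W945.Pw Pool.Agent.W945.Lc

/-- the table bounds the formula -/
def Tb (T : ℕ → ℕ → ℕ) (l : ℕ) (p a : ℝ) : Prop :=
  ∃ k : ℕ, k ≤ 2 ^ l ∧ (2 : ℝ) ^ l * p = k ∧ T l k ≠ 0 ∧ (2 : ℝ) ^ l * a ≤ (T l k : ℝ)

/-- the invariant -/
structure Iv (T : ℕ → ℕ → ℕ) (l : ℕ) (p a : ℝ) : Prop where
  l1 : 1 ≤ l
  p0 : 0 < p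
  p1 : p < 1
  pa : p ≤ a
  tb : l ≤ 10 → Tb T l p a
  a9 : a ≤ 905 / 1000 * rho ^ l
  b9 : 1 - 2 * p + a ≤ 905 / 1000 * rho ^ l
  a8 : 5 ≤ l → a ≤ 8 / 10 * rho ^ l
  b8 : 5 ≤ l → 1 - 2 * p + a ≤ 8 / 10 * rho ^ l

lemma rho_pow (l : ℕ) : rho ^ l = (103 : ℝ) ^ l / 80 ^ l := by
  unfold rho; rw [div_pow]

lemma rho_pos : 0 < rho := by unfold rho; norm_num

lemma tb_neg (T : ℕ → ℕ → ℕ)
    (hb : ∀ l < 11, ∀ k < 2 ^ l + 1, T l k ≠ 0 → 2 ^ l + T l k ≤ T l (2 ^ l - k) + 2 * k)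
    (l : ℕ) (p a : ℝ) (hl : l ≤ 10) (hp1 : p < 1) (hpa : p ≤ a) (h : Tb T l p a) :
    Tb T l (1 - p) (1 - 2 * p + a) := by
  obtain ⟨k, hk, hkp, hne, hka⟩ := h
  have h1 := hb l (by omega) k (by omega) hne
  have h1R : (2 : ℝ) ^ l + (T l k : ℝ) ≤ (T l (2 ^ l - k) : ℝ) + 2 * (k : ℝ) := by exact_mod_cast h1
  have h2 : (0 : ℝ) < 2 ^ l := by positivity
  have h3 : (2 : ℝ) ^ l * (1 - 2 * p + a) ≤ (T l (2 ^ l - k) : ℝ) := by
    have : (2 : ℝ) ^ l * (1 - 2 * p + a) = 2 ^ l - 2 * (2 ^ l * p) + 2 ^ l * a := by ring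
    rw [this, hkp]
    linarith
  have h4 : 0 < 1 - 2 * p + a := by linarith
  refine ⟨2 ^ l - k, Nat.sub_le _ _, ?_, ?_, h3⟩
  · rw [Nat.cast_sub hk, mul_sub, hkp, mul_one]
    push_cast
    rfl
  · intro h0
    rw [h0] at h3
    have : 0 < (2 : ℝ) ^ l * (1 - 2 * p + a) := mul_pos h2 h4
    push_cast at h3
    linarith

lemma tb9 (T : ℕ → ℕ → ℕ) (l k : ℕ) (p a : ℝ) (hka : (2 : ℝ) ^ l * a ≤ (T l k : ℝ))
    (h : 1000 * 80 ^ l * T l k ≤ 905 * 2 ^ l * 103 ^ l) : a ≤ 905 / 1000 * rho ^ l := by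
  have hR : (1000 : ℝ) * 80 ^ l * (T l k : ℝ) ≤ 905 * 2 ^ l * 103 ^ l := by exact_mod_cast h
  have h80 : (0 : ℝ) < 80 ^ l := by positivity
  have h2 : (0 : ℝ) < 2 ^ l := by positivity
  have h3 : (1000 : ℝ) * 80 ^ l * (2 ^ l * a) ≤ 905 * 2 ^ l * 103 ^ l :=
    (mul_le_mul_of_nonneg_left hka (by positivity)).trans hR
  rw [rho_pow, ← mul_div_assoc, le_div_iff₀ h80]
  refine le_of_mul_le_mul_left (a := (1000 : ℝ) * 2 ^ l) ?_ (by positivity)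
  calc (1000 : ℝ) * 2 ^ l * (a * 80 ^ l) = 1000 * 80 ^ l * (2 ^ l * a) := by ring
    _ ≤ _ := h3
    _ = _ := by ring

lemma tb8 (T : ℕ → ℕ → ℕ) (l k : ℕ) (p a : ℝ) (hka : (2 : ℝ) ^ l * a ≤ (T l k : ℝ))
    (h : 10 * 80 ^ l * T l k ≤ 8 * 2 ^ l * 103 ^ l) : a ≤ 8 / 10 * rho ^ l := by
  have hR : (10 : ℝ) * 80 ^ l * (T l k : ℝ) ≤ 8 * 2 ^ l * 103 ^ l := by exact_mod_cast h
  have h80 : (0 : ℝ) < 80 ^ l := by positivity
  have h2 : (0 : ℝ) < 2 ^ l := by positivity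
  have h3 : (10 : ℝ) * 80 ^ l * (2 ^ l * a) ≤ 8 * 2 ^ l * 103 ^ l :=
    (mul_le_mul_of_nonneg_left hka (by positivity)).trans hR
  rw [rho_pow, ← mul_div_assoc, le_div_iff₀ h80]
  refine le_of_mul_le_mul_left (a := (10 : ℝ) * 2 ^ l) ?_ (by positivity)
  calc (10 : ℝ) * 2 ^ l * (a * 80 ^ l) = 10 * 80 ^ l * (2 ^ l * a) := by ring
    _ ≤ _ := h3
    _ = _ := by ring

/-- the hypotheses on the table -/
structure HT (T : ℕ → ℕ → ℕ) : Prop where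
  a : 2 ≤ T 1 1
  b : ∀ l < 11, ∀ k < 2 ^ l + 1, T l k ≠ 0 → 2 ^ l + T l k ≤ T l (2 ^ l - k) + 2 * k
  c : ∀ l < 11, ∀ m < 11, 1 ≤ l → 1 ≤ m → l + m ≤ 10 → ∀ k < 2 ^ l + 1, ∀ j < 2 ^ m + 1,
    T l k ≠ 0 → T m j ≠ 0 → T l k * T m j ≤ T (l + m) (k * j)
  d : ∀ l < 5, 1 ≤ l → ∀ k < 2 ^ l + 1, T l k ≠ 0 →
    80 ^ (l + 3) * T l k + 80 ^ (l + 1) * 103 ^ 2 * (2 ^ l + T l k) ≤
      2 ^ l * 103 ^ (l + 3) + 80 ^ (l + 1) * 103 ^ 2 * (2 * k) ∧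
    1000 * 80 ^ l * T l k ≤ 905 * 2 ^ l * 103 ^ l
  e : ∀ l < 11, 5 ≤ l → ∀ k < 2 ^ l + 1, 10 * 80 ^ l * T l k ≤ 8 * 2 ^ l * 103 ^ l

lemma tb_a9 {T : ℕ → ℕ → ℕ} (hT : HT T) {l : ℕ} {p a : ℝ} (h1 : 1 ≤ l) (h10 : l ≤ 10)
    (h : Tb T l p a) : a ≤ 905 / 1000 * rho ^ l := by
  obtain ⟨k, hk, hkp, hne, hka⟩ := h
  rcases Nat.lt_or_ge l 5 with h5 | h5
  · exact tb9 T l k p a hka (hT.d l h5 h1 k (by omega) hne).2
  · have h8 := tb8 T l k p a hka (hT.e l (by omega) h5 k (by omega))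
    have : 0 < rho ^ l := pow_pos rho_pos l
    linarith

lemma tb_a8 {T : ℕ → ℕ → ℕ} (hT : HT T) {l : ℕ} {p a : ℝ} (h5 : 5 ≤ l) (h10 : l ≤ 10)
    (h : Tb T l p a) : a ≤ 8 / 10 * rho ^ l := by
  obtain ⟨k, hk, hkp, hne, hka⟩ := h
  exact tb8 T l k p a hka (hT.e l (by omega) h5 k (by omega))

/-- for small sizes everything follows from the table -/
lemma iv_of_tb {T : ℕ → ℕ → ℕ} (hT : HT T) {l : ℕ} {p a : ℝ} (h1 : 1 ≤ l) (h10 : l ≤ 10)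
    (hp0 : 0 < p) (hp1 : p < 1) (hpa : p ≤ a) (h : Tb T l p a) : Iv T l p a := by
  have hn := tb_neg T hT.b l p a h10 hp1 hpa h
  exact ⟨h1, hp0, hp1, hpa, fun _ => h, tb_a9 hT h1 h10 h, tb_a9 hT h1 h10 hn,
    fun h5 => tb_a8 hT h5 h10 h, fun h5 => tb_a8 hT h5 h10 hn⟩

lemma rho11 (n : ℕ) (hn : 11 ≤ n) : 1 ≤ 76 / 1000 * rho ^ n := by
  have h1 : (1 : ℝ) ≤ rho := by unfold rho; norm_num
  have h2 : rho ^ 11 ≤ rho ^ n := pow_le_pow_right₀ h1 hn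
  have h3 : (1 : ℝ) ≤ 76 / 1000 * rho ^ 11 := by unfold rho; norm_num
  linarith

lemma iv {T : ℕ → ℕ → ℕ} (hT : HT T) {l : ℕ} {p a : ℝ} (h : Blk l p a) : Iv T l p a := by
  induction h with
  | leaf =>
    refine iv_of_tb hT le_rfl (by norm_num) (by norm_num) (by norm_num) (by norm_num) ?_
    refine ⟨1, by norm_num, by norm_num, ?_, ?_⟩
    · have := hT.a; omega
    · have h2 : (2 : ℝ) ≤ (T 1 1 : ℝ) := by exact_mod_cast hT.a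
      linarith
  | @neg l p a _ ih =>
    have e : 1 - 2 * (1 - p) + (1 - 2 * p + a) = a := by ring
    refine ⟨ih.l1, by linarith [ih.p1], by linarith [ih.p0], by linarith [ih.pa], ?_, ih.b9, ?_,
      ih.b8, ?_⟩
    · intro h10
      exact tb_neg T hT.b l p a h10 ih.p1 ih.pa (ih.tb h10)
    · rw [e]; exact ih.a9
    · intro h5; rw [e]; exact ih.a8 h5
  | @mul l m p q a b _ _ ih1 ih2 =>
    have hl := ih1.l1
    have hm := ih2.l1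
    have hp0 : 0 < p * q := mul_pos ih1.p0 ih2.p0
    have hp1 : p * q < 1 := by nlinarith [ih1.p0, ih2.p0, ih1.p1, ih2.p1]
    have ha0 : 0 < a := lt_of_lt_of_le ih1.p0 ih1.pa
    have hb0 : 0 < b := lt_of_lt_of_le ih2.p0 ih2.pa
    have hpa : p * q ≤ a * b := mul_le_mul ih1.pa ih2.pa ih2.p0.le ha0.le
    rcases Nat.lt_or_ge (l + m) 11 with hlm | hlm
    · refine iv_of_tb hT (by omega) (by omega) hp0 hp1 hpa ?_
      obtain ⟨k, hk, hkp, hkne, hka⟩ := ih1.tb (by omega)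
      obtain ⟨j, hj, hjq, hjne, hjb⟩ := ih2.tb (by omega)
      have hc := hT.c l (by omega) m (by omega) hl hm (by omega) k (by omega) j (by omega) hkne hjne
      refine ⟨k * j, ?_, ?_, ?_, ?_⟩
      · rw [pow_add]; exact Nat.mul_le_mul hk hj
      · push_cast
        rw [← hkp, ← hjq, pow_add]; ring
      · have : 0 < T l k * T m j := Nat.mul_pos (Nat.pos_of_ne_zero hkne) (Nat.pos_of_ne_zero hjne)
        omega
      · have hcR : (T l k : ℝ) * (T m j : ℝ) ≤ (T (l + m) (k * j) : ℝ) := by exact_mod_cast hc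
        calc (2 : ℝ) ^ (l + m) * (a * b) = (2 ^ l * a) * (2 ^ m * b) := by rw [pow_add]; ring
          _ ≤ (T l k : ℝ) * (T m j : ℝ) :=
              mul_le_mul hka hjb (by positivity) (by positivity)
          _ ≤ _ := hcR
    · have hx : 0 < rho ^ (l + m) := pow_pos rho_pos _
      have hxl : 0 < rho ^ l := pow_pos rho_pos _
      have hxm : 0 < rho ^ m := pow_pos rho_pos _
      have hab : a * b ≤ 724 / 1000 * rho ^ (l + m) := by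
        rcases Nat.lt_or_ge l 5 with h5 | h5
        · have hm5 : 5 ≤ m := by omega
          calc a * b ≤ (905 / 1000 * rho ^ l) * (8 / 10 * rho ^ m) :=
                mul_le_mul ih1.a9 (ih2.a8 hm5) hb0.le (by positivity)
            _ = 724 / 1000 * rho ^ (l + m) := by rw [pow_add]; ring
        · calc a * b ≤ (8 / 10 * rho ^ l) * (905 / 1000 * rho ^ m) :=
                mul_le_mul (ih1.a8 h5) ih2.a9 hb0.le (by positivity)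
            _ = 724 / 1000 * rho ^ (l + m) := by rw [pow_add]; ring
      have h11 := rho11 (l + m) hlm
      have hB : 1 - 2 * (p * q) + a * b ≤ 8 / 10 * rho ^ (l + m) := by linarith
      exact ⟨by omega, hp0, hp1, hpa, fun h => absurd h (by omega), by linarith, by linarith,
        fun _ => by linarith, fun _ => hB⟩

lemma s1 {T : ℕ → ℕ → ℕ} (hT : HT T) {l : ℕ} {p a : ℝ} (h : Iv T l p a) :
    a + (1 - 2 * p + a) * rho ^ 2 ≤ rho ^ (l + 3) := by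
  rcases Nat.lt_or_ge l 5 with h5 | h5
  · obtain ⟨k, hk, hkp, hne, hka⟩ := h.tb (by omega)
    have hd := (hT.d l h5 h.l1 k (by omega) hne).1
    have hR : (80 : ℝ) ^ (l + 3) * (T l k : ℝ) + 80 ^ (l + 1) * 103 ^ 2 * (2 ^ l + (T l k : ℝ)) ≤
      2 ^ l * 103 ^ (l + 3) + 80 ^ (l + 1) * 103 ^ 2 * (2 * (k : ℝ)) := by exact_mod_cast hd
    have h80 : (0 : ℝ) < 80 ^ l := by positivity
    have h2 : (0 : ℝ) < 2 ^ l := by positivity
    have hmono : (80 : ℝ) ^ (l + 3) * (2 ^ l * a) + 80 ^ (l + 1) * 103 ^ 2 * (2 ^ l + 2 ^ l * a) ≤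
        2 ^ l * 103 ^ (l + 3) + 80 ^ (l + 1) * 103 ^ 2 * (2 * (2 ^ l * p)) := by
      rw [hkp]
      refine le_trans (add_le_add ?_ ?_) hR
      · exact mul_le_mul_of_nonneg_left hka (by positivity)
      · exact mul_le_mul_of_nonneg_left (by linarith) (by positivity)
    have e1 : rho ^ (l + 3) = (103 : ℝ) ^ (l + 3) / 80 ^ (l + 3) := rho_pow _
    have e2 : rho ^ 2 = (103 : ℝ) ^ 2 / 80 ^ 2 := rho_pow _
    rw [e1, e2, le_div_iff₀ (by positivity)]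
    refine le_of_mul_le_mul_left (a := (2 : ℝ) ^ l) ?_ h2
    have e3 : (2 : ℝ) ^ l * ((a + (1 - 2 * p + a) * (103 ^ 2 / 80 ^ 2)) * 80 ^ (l + 3)) =
        (80 : ℝ) ^ (l + 3) * (2 ^ l * a) + 80 ^ (l + 1) * 103 ^ 2 * (2 ^ l + 2 ^ l * a) -
          80 ^ (l + 1) * 103 ^ 2 * (2 * (2 ^ l * p)) := by
      have e4 : (80 : ℝ) ^ (l + 3) = 80 ^ l * 80 ^ 3 := pow_add _ _ _
      have e5 : (80 : ℝ) ^ (l + 1) = 80 ^ l * 80 := pow_succ _ _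
      rw [e4, e5]
      ring
    rw [e3]
    linarith
  · have ha := h.a8 h5
    have hb := h.b8 h5
    have hx : 0 < rho ^ l := pow_pos rho_pos _
    have hx2 : 0 < rho ^ 2 := pow_pos rho_pos _
    have h3 : 8 / 10 * (1 + rho ^ 2) ≤ rho ^ 3 := by unfold rho; norm_num
    calc a + (1 - 2 * p + a) * rho ^ 2 ≤ 8 / 10 * rho ^ l + (8 / 10 * rho ^ l) * rho ^ 2 :=
          add_le_add ha (mul_le_mul_of_nonneg_right hb hx2.le)
      _ = rho ^ l * (8 / 10 * (1 + rho ^ 2)) := by ring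
      _ ≤ rho ^ l * rho ^ 3 := mul_le_mul_of_nonneg_left h3 hx.le
      _ = rho ^ (l + 3) := by rw [pow_add]

lemma gen {T : ℕ → ℕ → ℕ} (hT : HT T) {l : ℕ} {p a : ℝ} (h : Blk l p a) :
    1 ≤ l ∧ 0 ≤ p ∧ p ≤ 1 ∧ p ≤ a ∧ a + (1 - 2 * p + a) * rho ^ 2 ≤ rho ^ (l + 3) ∧
    (1 - 2 * p + a) + a * rho ^ 2 ≤ rho ^ (l + 3) ∧ a + (1 - 2 * p + a) ≤ rho ^ (l + 2) := by
  have hi := iv hT h
  have hn := iv hT (Blk.neg h)
  have h1 := s1 hT hi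
  have h2 := s1 hT hn
  have e : 1 - 2 * (1 - p) + (1 - 2 * p + a) = a := by ring
  rw [e] at h2
  refine ⟨hi.l1, hi.p0.le, hi.p1.le, hi.pa, h1, h2, ?_⟩
  have hx : 0 < rho := rho_pos
  have hs : 0 ≤ a + (1 - 2 * p + a) := by linarith [hi.p0, hi.p1, hi.pa]
  have h3 : 2 * rho ≤ 1 + rho ^ 2 := by nlinarith [sq_nonneg (rho - 1)]
  have h4 : (a + (1 - 2 * p + a)) * (2 * rho) ≤ 2 * rho ^ (l + 3) := by
    calc (a + (1 - 2 * p + a)) * (2 * rho) ≤ (a + (1 - 2 * p + a)) * (1 + rho ^ 2) :=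
          mul_le_mul_of_nonneg_left h3 hs
      _ = (a + (1 - 2 * p + a) * rho ^ 2) + ((1 - 2 * p + a) + a * rho ^ 2) := by ring
      _ ≤ _ := by linarith
  have h5 : (2 * rho) * (a + (1 - 2 * p + a)) ≤ (2 * rho) * rho ^ (l + 2) := by
    calc (2 * rho) * (a + (1 - 2 * p + a)) = (a + (1 - 2 * p + a)) * (2 * rho) := by ring
      _ ≤ _ := h4
      _ = _ := by ring
  exact le_of_mul_le_mul_left h5 (by positivity)

theorem main : BLKN.Stm := by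
  intro h l p a hB
  obtain ⟨ha, hb, hc, hd, he⟩ := h
  exact gen (T := tabA) ⟨ha, hb, hc, hd, he⟩ hB

end Pool.Agent.W584.Lc2.BLKN
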